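import Pool.Agent.Run7.h775.Knight.Poly

/-!
# Central coefficients
-/

namespace Run7.h775.Knight

open Polynomial Finset

lemma npc {a b : ℕ} (h : a % 2 = b % 2) : (-1 : ℚ) ^ a = (-1) ^ b :=
  neg_one_pow_congr (by rw [Nat.even_iff, Nat.even_iff, h])

lemma cf_symm {h t : ℕ} (ht : t ≤ h) : cf h t = (-1) ^ h * cf h (h - t) := by
  unfold cf
  rw [Nat.sub_sub_self ht, Nat.choose_symm ht, ← mul_assoc, ← pow_add]
  congr 1
  exact npc (by omega)

lemma Tp_comp {h t : ℕ} (ht : t ≤ h) : (Tp h t).comp (-X) = C ((-1) ^ h) * Tp h (h - t) := by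
  unfold Tp
  rw [cf_symm ht, Nat.sub_sub_self ht, C_mul]
  simp only [mul_comp, pow_comp, add_comp, sub_comp, one_comp, X_comp, C_comp]
  ring

lemma Sp_comp (h : ℕ) :
    (Sp h).comp (-X) = C ((-1) ^ h) * ∑ t ∈ range (h + 1 - tau h), Tp h t := by
  unfold Sp
  rw [Polynomial.sum_comp, mul_sum]
  rw [sum_congr rfl (fun t ht => Tp_comp (by rw [mem_Ico] at ht; omega : t ≤ h))]
  rw [sum_Ico_reflect (fun t => C ((-1) ^ h) * Tp h t) (tau h) (le_refl _)]
  rw [Nat.sub_self, Nat.Ico_zero_eq_range]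

lemma Sp_add_low (h : ℕ) : ∑ t ∈ range (tau h), Tp h t + Sp h = C ((4 : ℚ) ^ h) * X ^ h := by
  rw [← sum_T, ← sum_range_add_sum_Ico _ (tau_le h)]
  rfl

lemma Sp_center_odd (m : ℕ) : 2 * (Sp (2 * m + 1)).coeff (2 * m + 1) = 4 ^ (2 * m + 1) := by
  set h := 2 * m + 1 with hh
  have e1 := Sp_comp h
  have e2 := Sp_add_low h
  have e3 : h + 1 - tau h = tau h := by unfold tau; omega
  rw [e3] at e1
  have c1 := congrArg (fun p => coeff p h) e1
  have c2 := congrArg (fun p => coeff p h) e2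
  simp only [coeff_comp_neg, coeff_C_mul, coeff_add, coeff_X_pow_self, mul_one] at c1 c2
  have c3 : (Sp h).coeff h = (∑ t ∈ range (tau h), Tp h t).coeff h :=
    mul_left_cancel₀ (pow_ne_zero _ (by norm_num)) c1
  linarith

lemma Tp_mid (m : ℕ) : (Tp (2 * m) m).coeff (2 * m) = ((2 * m).choose m : ℚ) ^ 2 := by
  unfold Tp cf
  rw [coeff_C_mul, show 2 * m - m = m by omega]
  have : ((1 + X) ^ (2 * m) * (1 - X) ^ (2 * m) : ℚ[X]) = (1 - X ^ 2) ^ (2 * m) := by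
    rw [← mul_pow]; congr 1; ring
  rw [this, coeff_one_sub_sq_even]
  have h1 : ((-1 : ℚ) ^ m) * (-1) ^ m = 1 := by rw [← mul_pow]; norm_num
  linear_combination ((2 * m).choose m : ℚ) ^ 2 * h1

lemma Sp_center_even (m : ℕ) (hm : 1 ≤ m) :
    2 * (Sp (2 * m)).coeff (2 * m) = 4 ^ (2 * m) - ((2 * m).choose m : ℚ) ^ 2 := by
  set h := 2 * m with hh
  have e1 := Sp_comp h
  have e2 := Sp_add_low h
  have e3 : h + 1 - tau h = m := by unfold tau; omega
  have e4 : tau h = m + 1 := by unfold tau; omega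
  rw [e3] at e1
  rw [e4, sum_range_succ] at e2
  have c1 := congrArg (fun p => coeff p h) e1
  have c2 := congrArg (fun p => coeff p h) e2
  simp only [coeff_comp_neg, coeff_C_mul, coeff_add, coeff_X_pow_self, mul_one] at c1 c2
  have c3 : (Sp h).coeff h = (∑ t ∈ range m, Tp h t).coeff h :=
    mul_left_cancel₀ (pow_ne_zero _ (by norm_num)) c1
  have c4 : (Tp h m).coeff h = ((2 * m).choose m : ℚ) ^ 2 := Tp_mid m
  rw [c4] at c2
  linarith

/-- boundary term -/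
noncomputable def Rp (h t : ℕ) : ℚ[X] :=
  C (t * cf h t) * ((1 + X) ^ (2 * t - 1) * (1 - X) ^ (2 * (h - t) + 1))

lemma cf_succ {h t : ℕ} (ht : t < h) : ((t + 1 : ℕ) : ℚ) * cf h (t + 1) = -(((h - t : ℕ) : ℚ) * cf h t) := by
  unfold cf
  have h1 := Nat.choose_succ_right_eq h t
  have h2 : (h.choose (t + 1) : ℚ) * ((t + 1 : ℕ) : ℚ) = (h.choose t : ℚ) * ((h - t : ℕ) : ℚ) := by
    exact_mod_cast h1
  have h3 : (-1 : ℚ) ^ (h - t) = - (-1) ^ (h - (t + 1)) := by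
    rw [show h - t = (h - (t + 1)) + 1 by omega, pow_succ]; ring
  rw [h3]
  linear_combination (-1) ^ (h - (t + 1)) * h2

lemma ode_term {h t : ℕ} (h1 : 1 ≤ t) (ht : t ≤ h) :
    X * derivative (Tp h t) - C (h : ℚ) * Tp h t = Rp h (t + 1) - Rp h t := by
  obtain ⟨s, rfl⟩ : ∃ s, t = s + 1 := ⟨t - 1, by omega⟩
  have dp : ∀ a : ℕ, derivative ((1 + X : ℚ[X]) ^ (a + 1)) = C ((a : ℚ) + 1) * (1 + X) ^ a := by
    intro a
    rw [derivative_pow_succ]
    simp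
  have dm : ∀ a : ℕ, derivative ((1 - X : ℚ[X]) ^ (a + 1)) = - (C ((a : ℚ) + 1) * (1 - X) ^ a) := by
    intro a
    rw [derivative_pow_succ]
    simp
  rcases eq_or_lt_of_le ht with h2 | h2
  · -- last term
    have e1 : Rp h (s + 1 + 1) = 0 := by
      unfold Rp cf
      rw [← h2, Nat.choose_succ_self]
      simp
    rw [e1]
    unfold Tp Rp
    rw [← h2, Nat.sub_self, mul_zero, pow_zero, mul_one, derivative_C_mul,
      show 2 * (s + 1) = (2 * s + 1) + 1 by ring, dp, show 2 * s + 1 + 1 - 1 = 2 * s + 1 by omega,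
      C_mul]
    have e2 : (C ((2 * s + 1 : ℕ) : ℚ) : ℚ[X]) = 2 * C (s : ℚ) + 1 := by
      push_cast
      rw [C_add, C_mul, C_1]; rfl
    have e3 : (C ((s + 1 : ℕ) : ℚ) : ℚ[X]) = C (s : ℚ) + 1 := by
      push_cast
      rw [C_add, C_1]
    rw [C_add, e2, e3, C_1]
    ring
  · obtain ⟨j, hj⟩ : ∃ j, h - (s + 1) = j + 1 := ⟨h - (s + 1) - 1, by omega⟩
    have hh : h = s + j + 2 := by omega
    have e4 := cf_succ h2
    rw [hj] at e4
    unfold Rp
    rw [e4]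
    unfold Tp
    rw [hj, show h - (s + 1 + 1) = j by omega, derivative_C_mul, derivative_mul,
      show 2 * (s + 1) = (2 * s + 1) + 1 by ring, dp, show 2 * (j + 1) = (2 * j + 1) + 1 by ring, dm,
      show 2 * s + 1 + 1 - 1 = 2 * s + 1 by omega,
      show 2 * (s + 1 + 1) - 1 = 2 * s + 3 by omega, C_neg, C_mul, C_mul]
    have e2 : ∀ a : ℕ, (C ((2 * a + 1 : ℕ) : ℚ) : ℚ[X]) = 2 * C (a : ℚ) + 1 := by
      intro a
      push_cast
      rw [C_add, C_mul, C_1]; rfl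
    have e3 : ∀ a : ℕ, (C ((a + 1 : ℕ) : ℚ) : ℚ[X]) = C (a : ℚ) + 1 := by
      intro a
      push_cast
      rw [C_add, C_1]
    have e5 : (C (h : ℚ) : ℚ[X]) = C (s : ℚ) + C (j : ℚ) + 2 := by
      rw [hh]; push_cast; rw [C_add, C_add]; rfl
    rw [C_add, C_add, e2, e2, e3, e3, C_1, e5]
    ring

lemma ode (h : ℕ) : X * derivative (Sp h) - C (h : ℚ) * Sp h = - Rp h (tau h) := by
  have h1 : X * derivative (Sp h) - C (h : ℚ) * Sp h =
      ∑ t ∈ Ico (tau h) (h + 1), (Rp h (t + 1) - Rp h t) := by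
    unfold Sp
    rw [derivative_sum, mul_sum, mul_sum, ← sum_sub_distrib]
    apply sum_congr rfl
    intro t ht
    rw [mem_Ico] at ht
    exact ode_term (by unfold tau at ht; omega) (by omega)
  rw [h1, sum_Ico_sub _ (tau_le h)]
  have e1 : Rp h (h + 1) = 0 := by
    unfold Rp cf
    rw [Nat.choose_succ_self]
    simp
  rw [e1, zero_sub]

lemma Sp_coeff_pred (h : ℕ) (hh : 1 ≤ h) : (Sp h).coeff (h - 1) = (Rp h (tau h)).coeff (h - 1) := by
  have e := congrArg (fun p => coeff p (h - 1)) (ode h)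
  simp only [coeff_sub, coeff_C_mul, coeff_neg] at e
  have e2 : (X * derivative (Sp h)).coeff (h - 1) = ((h - 1 : ℕ) : ℚ) * (Sp h).coeff (h - 1) := by
    rcases Nat.eq_zero_or_pos (h - 1) with h0 | h0
    · rw [h0, coeff_X_mul_zero]; simp
    · obtain ⟨k, hk⟩ : ∃ k, h - 1 = k + 1 := ⟨h - 2, by omega⟩
      rw [hk, coeff_X_mul, coeff_derivative]
      push_cast
      ring
  rw [e2] at e
  have e3 : ((h - 1 : ℕ) : ℚ) = (h : ℚ) - 1 := by
    rw [Nat.cast_sub hh]; simp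
  rw [e3] at e
  linarith

lemma Rp_even (m : ℕ) (hm : 1 ≤ m) :
    (Rp (2 * m) (tau (2 * m))).coeff (2 * m - 1) = m * ((2 * m).choose m : ℚ) ^ 2 := by
  obtain ⟨k, rfl⟩ : ∃ k, m = k + 1 := ⟨m - 1, by omega⟩
  have e4 : tau (2 * (k + 1)) = k + 2 := by unfold tau; omega
  rw [e4]
  unfold Rp
  have e5 := cf_succ (h := 2 * (k + 1)) (t := k + 1) (by omega)
  rw [show k + 2 = k + 1 + 1 by ring, e5, show 2 * (k + 1) - (k + 1) = k + 1 by omega,
    show 2 * (k + 1 + 1) - 1 = 2 + (2 * k + 1) by omega,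
    show 2 * (2 * (k + 1) - (k + 1 + 1)) + 1 = 2 * k + 1 by omega, coeff_C_mul]
  have e6 : ((1 + X) ^ (2 + (2 * k + 1)) * (1 - X) ^ (2 * k + 1) : ℚ[X]) =
      (1 - X ^ 2) ^ (2 * k + 1) + C 2 * (X * (1 - X ^ 2) ^ (2 * k + 1)) +
        X ^ 2 * (1 - X ^ 2) ^ (2 * k + 1) := by
    have : (1 - X ^ 2 : ℚ[X]) ^ (2 * k + 1) = (1 + X) ^ (2 * k + 1) * (1 - X) ^ (2 * k + 1) := by
      rw [← mul_pow]; congr 1; ring
    rw [this, show (C 2 : ℚ[X]) = 2 from rfl]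
    ring
  rw [e6, show 2 * (k + 1) - 1 = 2 * k + 1 by omega, coeff_add, coeff_add, coeff_C_mul,
    coeff_X_mul, coeff_one_sub_sq_odd, coeff_one_sub_sq_even]
  have e7 : (X ^ 2 * (1 - X ^ 2) ^ (2 * k + 1) : ℚ[X]).coeff (2 * k + 1) = 0 := by
    rcases Nat.eq_zero_or_pos k with rfl | hk
    · rw [coeff_X_pow_mul']; simp
    · obtain ⟨j, rfl⟩ : ∃ j, k = j + 1 := ⟨k - 1, by omega⟩
      rw [coeff_X_pow_mul', if_pos (by omega), show 2 * (j + 1) + 1 - 2 = 2 * j + 1 by omega,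
        coeff_one_sub_sq_odd]
  rw [e7]
  unfold cf
  rw [show 2 * (k + 1) - (k + 1) = k + 1 by omega]
  have e8 : ((2 * (k + 1)).choose (k + 1) : ℚ) = 2 * ((2 * k + 1).choose k : ℚ) := by
    have h1 : (2 * (k + 1)).choose (k + 1) = 2 * (2 * k + 1).choose k := by
      rw [show 2 * (k + 1) = (2 * k + 1) + 1 by ring, Nat.choose_succ_succ,
        Nat.choose_symm_half]
      ring
    exact_mod_cast h1
  rw [e8]
  have h1 : ((-1 : ℚ) ^ k) * (-1) ^ k = 1 := by rw [← mul_pow]; norm_num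
  push_cast
  rw [pow_succ]
  linear_combination (4 * ((2 * k + 1).choose k : ℚ) ^ 2 * (k + 1)) * h1

lemma Rp_odd (m : ℕ) :
    (Rp (2 * m + 1) (tau (2 * m + 1))).coeff (2 * m) =
      (m + 1) * ((2 * m + 1).choose m : ℚ) ^ 2 := by
  have e4 : tau (2 * m + 1) = m + 1 := by unfold tau; omega
  rw [e4]
  unfold Rp
  rw [show 2 * (m + 1) - 1 = 2 * m + 1 by omega,
    show 2 * (2 * m + 1 - (m + 1)) + 1 = 2 * m + 1 by omega, coeff_C_mul]
  have e6 : ((1 + X) ^ (2 * m + 1) * (1 - X) ^ (2 * m + 1) : ℚ[X]) = (1 - X ^ 2) ^ (2 * m + 1) := by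
    rw [← mul_pow]; congr 1; ring
  rw [e6, coeff_one_sub_sq_even]
  unfold cf
  rw [show 2 * m + 1 - (m + 1) = m by omega, Nat.choose_symm_half]
  have h1 : ((-1 : ℚ) ^ m) * (-1) ^ m = 1 := by rw [← mul_pow]; norm_num
  push_cast
  linear_combination (((2 * m + 1).choose m : ℚ) ^ 2 * (m + 1)) * h1

end Run7.h775.Knight
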