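import Pool.Agent.Run7.h775.Knight.Green

/-!
# The two columns for the centre of the diamond
-/

namespace Run7.h775.Knight

open Polynomial Finset Pool.Agent.Helper848.AztecDet

/-- `H` is the middle row of the Green function with source `(h, t0)` -/
def IsCol (n h t0 : ℕ) (H : ℚ[X]) : Prop :=
  ∃ U W : ℚ[X], U.natDegree + h + 1 ≤ n ∧ W.natDegree ≤ h ∧
    (1 + X) ^ (h + 1) * U + (1 - X) ^ (n - h) * W = X ^ t0 ∧ H = (1 + X) ^ h * U

/-- normalised cofactors -/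
noncomputable def U0 (h : ℕ) : ℚ[X] := C ((4 : ℚ) ^ h)⁻¹ * Up h
noncomputable def W0 (h : ℕ) : ℚ[X] := C ((4 : ℚ) ^ h)⁻¹ * Wp h
noncomputable def Q0 (h : ℕ) : ℚ[X] := C ((4 : ℚ) ^ h)⁻¹ * Qp h

lemma Q0_eq (h : ℕ) : Q0 h = (1 + X) ^ h * U0 h := by
  unfold Q0 U0; rw [Qp_eq]; ring

lemma bezout0 (h : ℕ) : (1 + X) ^ (h + 1) * U0 h + (1 - X) ^ h * W0 h = X ^ h := by
  have h1 := bezout h
  have h2 : (C ((4 : ℚ) ^ h)⁻¹ * C ((4 : ℚ) ^ h) : ℚ[X]) = 1 := by
    rw [← C_mul, inv_mul_cancel₀ (by positivity), C_1]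
  unfold U0 W0
  calc (1 + X) ^ (h + 1) * (C ((4 : ℚ) ^ h)⁻¹ * Up h) + (1 - X) ^ h * (C ((4 : ℚ) ^ h)⁻¹ * Wp h)
      = C ((4 : ℚ) ^ h)⁻¹ * ((1 + X) ^ (h + 1) * Up h + (1 - X) ^ h * Wp h) := by ring
    _ = (C ((4 : ℚ) ^ h)⁻¹ * C ((4 : ℚ) ^ h)) * X ^ h := by rw [h1]; ring
    _ = X ^ h := by rw [h2, one_mul]

lemma deg_U0 (h : ℕ) : (U0 h).natDegree ≤ h - 1 := (natDegree_C_mul_le _ _).trans (deg_Up h)
lemma deg_W0 (h : ℕ) : (W0 h).natDegree ≤ h := (natDegree_C_mul_le _ _).trans (deg_Wp h)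

lemma deg_p (a : ℕ) : ((1 + X : ℚ[X]) ^ a).natDegree ≤ a := by simpa using deg_pp a 0
lemma deg_m (a : ℕ) : ((1 - X : ℚ[X]) ^ a).natDegree ≤ a := by simpa using deg_pp 0 a
lemma top_p (a : ℕ) : ((1 + X : ℚ[X]) ^ a).coeff a = 1 := by simpa using coeff_pp_top a 0
lemma top_m (a : ℕ) : ((1 - X : ℚ[X]) ^ a).coeff a = (-1) ^ a := by simpa using coeff_pp_top 0 a

lemma deg_X_mul {p : ℚ[X]} {d : ℕ} (hp : p.natDegree ≤ d) : (X * p).natDegree ≤ d + 1 := by
  refine natDegree_mul_le.trans ?_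
  rw [natDegree_X]
  omega

lemma deg_drop {p : ℚ[X]} {d : ℕ} (hp : p.natDegree ≤ d + 1) (hc : p.coeff (d + 1) = 0) :
    p.natDegree ≤ d := by
  rw [natDegree_le_iff_coeff_eq_zero]
  intro k hk
  rcases Nat.lt_or_ge (d + 1) k with h1 | h1
  · exact coeff_eq_zero_of_natDegree_lt (by omega)
  · have : k = d + 1 := by omega
    rw [this, hc]

lemma top_rel (h : ℕ) (hh : 1 ≤ h) :
    (U0 h).coeff (h - 1) + (-1) ^ h * (W0 h).coeff h = 0 := by
  have h1 := congrArg (fun p => coeff p (2 * h)) (bezout0 h)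
  simp only [coeff_add] at h1
  rw [coeff_X_pow, if_neg (by omega)] at h1
  have h2 : ((1 + X) ^ (h + 1) * U0 h : ℚ[X]).coeff (2 * h) = (U0 h).coeff (h - 1) := by
    have := coeff_mul_add_eq_of_natDegree_le (deg_p (h + 1)) (deg_U0 h)
    rw [show h + 1 + (h - 1) = 2 * h by omega, top_p, one_mul] at this
    exact this
  have h3 : ((1 - X) ^ h * W0 h : ℚ[X]).coeff (2 * h) = (-1) ^ h * (W0 h).coeff h := by
    have := coeff_mul_add_eq_of_natDegree_le (deg_m h) (deg_W0 h)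
    rw [show h + h = 2 * h by omega, top_m] at this
    exact this
  rw [h2, h3] at h1
  exact h1

lemma sq_pow (h : ℕ) : (1 + X : ℚ[X]) ^ h * (1 - X) ^ h = (1 - X ^ 2) ^ h := by
  rw [← mul_pow]; congr 1; ring

lemma col_even0 (h : ℕ) (hh : 1 ≤ h) : IsCol (2 * h) h h (Q0 h) := by
  refine ⟨U0 h, W0 h, ?_, deg_W0 h, ?_, Q0_eq h⟩
  · have := deg_U0 h; omega
  · rw [show 2 * h - h = h by omega]; exact bezout0 h

lemma col_even1 (h : ℕ) (hh : 1 ≤ h) :
    IsCol (2 * h) h (h + 1) (X * Q0 h + C ((W0 h).coeff h) * (1 - X ^ 2) ^ h) := by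
  set α := (W0 h).coeff h with hα
  refine ⟨X * U0 h + C α * (1 - X) ^ h, X * W0 h - C α * (1 + X) ^ (h + 1), ?_, ?_, ?_, ?_⟩
  · obtain ⟨k, rfl⟩ : ∃ k, h = k + 1 := ⟨h - 1, by omega⟩
    have h1 : (X * U0 (k + 1) + C α * (1 - X) ^ (k + 1) : ℚ[X]).natDegree ≤ k := by
      apply deg_drop
      · refine (natDegree_add_le _ _).trans (max_le ?_ ?_)
        · apply deg_X_mul
          have := deg_U0 (k + 1)
          simpa using this
        · exact (natDegree_C_mul_le _ _).trans (deg_m _)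
      · have h2 := top_rel (k + 1) hh
        rw [Nat.add_sub_cancel] at h2
        rw [coeff_add, coeff_X_mul, coeff_C_mul, top_m, mul_comm α]
        exact h2
    omega
  · apply deg_drop
    · refine (natDegree_sub_le _ _).trans (max_le ?_ ?_)
      · exact deg_X_mul (deg_W0 h)
      · exact (natDegree_C_mul_le _ _).trans (deg_p _)
    · rw [coeff_sub, coeff_X_mul, coeff_C_mul, top_p, mul_one, sub_self]
  · rw [show 2 * h - h = h by omega, pow_succ X h, ← bezout0 h]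
    ring
  · rw [Q0_eq, ← sq_pow]; ring

lemma div_root {p : ℚ[X]} {d : ℕ} (hp : p.natDegree ≤ d + 1) (h0 : p.eval 1 = 0) :
    ∃ q : ℚ[X], p = (1 - X) * q ∧ q.natDegree ≤ d := by
  obtain ⟨q, hq⟩ := dvd_iff_isRoot.mpr (show p.IsRoot 1 from h0)
  refine ⟨-q, ?_, ?_⟩
  · rw [hq]; simp only [C_1]; ring
  · rw [natDegree_neg]
    by_cases hq0 : q = 0
    · rw [hq0]; simp
    · have h1 : p.natDegree = 1 + q.natDegree := by
        rw [hq, natDegree_mul (X_sub_C_ne_zero 1) hq0, natDegree_X_sub_C]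
      omega

lemma col_odd (h t : ℕ) (ht : t ≤ 1) (β : ℚ) (hβ : β * 2 ^ (h + 1) = (W0 h).eval 1) :
    IsCol (2 * h + 1) h (t + h) (X ^ t * Q0 h + C β * (1 - X ^ 2) ^ h) := by
  have hdeg : (X ^ t * W0 h - C β * (1 + X) ^ (h + 1)).natDegree ≤ h + 1 := by
    refine (natDegree_sub_le _ _).trans (max_le ?_ ?_)
    · refine natDegree_mul_le.trans ?_
      rw [natDegree_X_pow]
      have := deg_W0 h
      omega
    · exact (natDegree_C_mul_le _ _).trans (deg_p _)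
  obtain ⟨W, hW, hWd⟩ := div_root hdeg (by
    simp only [eval_sub, eval_mul, eval_pow, eval_X, eval_add, eval_C, eval_one, one_pow, one_mul]
    rw [← hβ]; norm_num)
  refine ⟨X ^ t * U0 h + C β * (1 - X) ^ h, W, ?_, hWd, ?_, ?_⟩
  · have : (X ^ t * U0 h + C β * (1 - X) ^ h : ℚ[X]).natDegree ≤ h := by
      refine (natDegree_add_le _ _).trans (max_le ?_ ?_)
      · rcases Nat.eq_zero_or_pos h with rfl | hh
        · have h0 : U0 0 = 0 := by
            unfold U0 Up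
            simp [tau]
          rw [h0, mul_zero]; simp
        · refine natDegree_mul_le.trans ?_
          rw [natDegree_X_pow]
          have := deg_U0 h
          omega
      · exact (natDegree_C_mul_le _ _).trans (deg_m _)
    omega
  · have e1 : (1 - X : ℚ[X]) ^ (2 * h + 1 - h) * W =
        (1 - X) ^ h * (X ^ t * W0 h - C β * (1 + X) ^ (h + 1)) := by
      rw [hW, show 2 * h + 1 - h = h + 1 by omega]; ring
    rw [e1, pow_add X t h, ← bezout0 h]
    ring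
  · rw [Q0_eq, ← sq_pow]; ring

end Run7.h775.Knight
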