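import Pool.Agent.Run7.h775.Knight.Region

/-!
# Counting the tilings
-/

namespace Run7.h775.Knight

open Finset Pool.Agent.Helper848 Pool.Agent.Helper848.AztecDet

section count

variable {n h : ℕ}

lemma co_inj {n i j i' j' : ℕ} (h : co n i j = co n i' j') : i = i' ∧ j = j' := by
  unfold co at h
  have h1 := congrArg Prod.fst h
  have h2 := congrArg Prod.snd h
  simp only at h1 h2
  omega

lemma cx_inj {n i j i' j' : ℕ} (h : cx n i j = cx n i' j') : i = i' ∧ j = j' := by
  unfold cx at h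
  have h1 := congrArg Prod.fst h
  have h2 := congrArg Prod.snd h
  simp only at h1 h2
  omega

lemma count_Rg (n h : ℕ) (h1 : 1 ≤ h) (hn : h < n) {Ha Hb : Polynomial ℚ}
    (ha : IsCol n h (h + 1) Ha) (hb : IsCol n h h Hb) :
    (numTilings (Rg n h) : ℚ) = 2 ^ (n * (n + 1) / 2) *
      |Ha.coeff (h - 1) * (1 - 2 * Hb.coeff h) + 2 * (Hb.coeff (h - 1) * Ha.coeff h)| := by
  classical
  let e2 : E n := (⟨h, by omega⟩, ⟨h - 1, by omega⟩)
  let o1 : O n := (⟨h, by omega⟩, ⟨h + 1, by omega⟩)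
  have hcard : Fintype.card {x : E n // x ≠ e2} = Fintype.card {o : O n // o ≠ o1} := by
    rw [Fintype.card_subtype_compl, Fintype.card_subtype_compl]
    simp [Fintype.card_prod, mul_comm]
  let φ : {x : E n // x ≠ e2} ≃ {o : O n // o ≠ o1} := Fintype.equivOfCardEq hcard
  have hmain := minor_main h1 hn ha hb φ
  rw [← hmain]
  let g : {x : E n // x ≠ e2} → ℤ × ℤ := fun i => cx n i.1.1 i.1.2
  let f : {x : E n // x ≠ e2} → ℤ × ℤ := fun j => co n (φ j).1.1 (φ j).1.2
  have hx2 : ∀ i : {x : E n // x ≠ e2}, ¬ ((i.1.1 : ℕ) = h ∧ (i.1.2 : ℕ) = h - 1) := by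
    intro i hc
    apply i.2
    exact Prod.ext (Fin.ext hc.1) (Fin.ext hc.2)
  have ho2 : ∀ i : {o : O n // o ≠ o1}, ¬ ((i.1.1 : ℕ) = h ∧ (i.1.2 : ℕ) = h + 1) := by
    intro i hc
    apply i.2
    exact Prod.ext (Fin.ext hc.1) (Fin.ext hc.2)
  have hfinj : Function.Injective f := by
    intro a b hab
    have := co_inj hab
    apply φ.injective
    apply Subtype.ext
    exact Prod.ext (Fin.ext this.1) (Fin.ext this.2)
  have hginj : Function.Injective g := by
    intro a b hab
    have := cx_inj hab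
    apply Subtype.ext
    exact Prod.ext (Fin.ext this.1) (Fin.ext this.2)
  have hfR : ∀ p, (∃ i, f i = p) ↔ p ∈ Rg n h ∧ Even (p.1 + p.2 + ((n : ℤ) + 1)) := by
    intro p
    rw [mem_Rg]
    constructor
    · rintro ⟨i, rfl⟩
      have hi := (φ i).1.1.2
      have hj := (φ i).1.2.2
      have := ho2 (φ i)
      simp only [f, co]
      rw [Int.even_iff]
      omega
    · rintro ⟨⟨⟨a1, a2, a3, a4⟩, a5, a6⟩, a7⟩
      rw [Int.even_iff] at a7
      have hi : ((p.2 - p.1 + n - 1) / 2).toNat < n := by omega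
      have hj : ((p.1 + p.2 + n + 1) / 2).toNat < n + 1 := by omega
      have hne : ((⟨_, hi⟩, ⟨_, hj⟩) : O n) ≠ o1 := by
        intro hc
        have c1 : ((p.2 - p.1 + n - 1) / 2).toNat = h := congrArg (fun z : O n => (z.1 : ℕ)) hc
        have c2 : ((p.1 + p.2 + n + 1) / 2).toNat = h + 1 := congrArg (fun z : O n => (z.2 : ℕ)) hc
        apply a6
        omega
      refine ⟨φ.symm ⟨_, hne⟩, ?_⟩
      simp only [f, Equiv.apply_symm_apply, co]
      ext <;> simp only <;> omega
  have hgR : ∀ p, (∃ i, g i = p) ↔ p ∈ Rg n h ∧ ¬ Even (p.1 + p.2 + ((n : ℤ) + 1)) := by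
    intro p
    rw [mem_Rg]
    constructor
    · rintro ⟨i, rfl⟩
      have hi := i.1.1.2
      have hj := i.1.2.2
      have := hx2 i
      simp only [g, cx]
      rw [Int.even_iff]
      omega
    · rintro ⟨⟨⟨a1, a2, a3, a4⟩, a5, a6⟩, a7⟩
      rw [Int.even_iff] at a7
      have hi : ((p.2 - p.1 + n) / 2).toNat < n + 1 := by omega
      have hj : ((p.1 + p.2 + n) / 2).toNat < n := by omega
      have hne : ((⟨_, hi⟩, ⟨_, hj⟩) : E n) ≠ e2 := by
        intro hc
        have c1 : ((p.2 - p.1 + n) / 2).toNat = h := congrArg (fun z : E n => (z.1 : ℕ)) hc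
        have c2 : ((p.1 + p.2 + n) / 2).toNat = h - 1 := congrArg (fun z : E n => (z.2 : ℕ)) hc
        apply a5
        omega
      refine ⟨⟨_, hne⟩, ?_⟩
      simp only [g, cx]
      ext <;> simp only <;> omega
  let α : {x : E n // x ≠ e2} → ℤˣ := fun i => (-1) ^ gx n h i.1.1 i.1.2
  let β : {x : E n // x ≠ e2} → ℤˣ := fun j => (-1) ^ go n h (φ j).1.1 (φ j).1.2
  let M : Matrix {x : E n // x ≠ e2} {x : E n // x ≠ e2} ℤ :=
    Matrix.of fun i j => α i * β j * kast (Rg n h) (g i) (f j)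
  have hcount := numTilings_eq ((n : ℤ) + 1) (Rg n h) f g hfinj hginj hfR hgR α β M
    (fun i j => rfl)
  rw [hcount]
  have hcast : ((M.det.natAbs : ℕ) : ℚ) = |((M.map (Int.castRingHom ℚ)).det)| := by
    have : (M.map (Int.castRingHom ℚ)).det = ((M.det : ℤ) : ℚ) := by
      rw [← RingHom.mapMatrix_apply, ← RingHom.map_det]
      rfl
    rw [this, Nat.cast_natAbs, Int.cast_abs]
  rw [hcast, ← Matrix.det_transpose]
  congr 2
  ext j i
  rw [Matrix.transpose_apply, Matrix.map_apply]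
  simp only [M, Matrix.of_apply, α, β, g, f]
  have hent := entry h1 hn (φ j).1.1 (φ j).1.2 i.1.1 i.1.2 (φ j).1.1.2 (by have := (φ j).1.2.2; omega)
    (by have := i.1.1.2; omega) i.1.2.2 (hx2 i) (ho2 (φ j))
  push_cast
  rw [hent]
  have hcond : (((φ j : O n) = (⟨h, by omega⟩, ⟨h, by omega⟩)) ∧
      ((i : E n) = (⟨h, by omega⟩, ⟨h, by omega⟩))) ↔
      (((φ j).1.1 : ℕ) = h ∧ ((φ j).1.2 : ℕ) = h) ∧ ((i.1.1 : ℕ) = h ∧ (i.1.2 : ℕ) = h) := by
    simp only [Prod.ext_iff, Fin.ext_iff]
  simp only [hcond]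
  by_cases hc : (((φ j).1.1 : ℕ) = h ∧ ((φ j).1.2 : ℕ) = h) ∧ ((i.1.1 : ℕ) = h ∧ (i.1.2 : ℕ) = h)
  · rw [if_pos hc, if_pos hc]
    simp
  · rw [if_neg hc, if_neg hc]
    simp [K0]

theorem count_main (n : ℕ) (hn : 2 ≤ n) :
    (numTilings (Rg n (n / 2)) : ℚ) = 2 ^ (n * (n + 1) / 2) * val n := by
  obtain ⟨Ha, Hb, ha, hb, hv⟩ := exists_cols n hn
  rw [count_Rg n (n / 2) (by omega) (by omega) ha hb, hv, abs_of_nonneg (val_nonneg n)]

end count

section reflection

/-- a symmetry carries tilings to tilings -/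
lemma isTiling_image {σ : ℤ × ℤ → ℤ × ℤ} (hσ : Function.Involutive σ)
    (hadj : ∀ p q, Adj p q → Adj (σ p) (σ q)) {R : Finset (ℤ × ℤ)} {T : Finset (Finset (ℤ × ℤ))}
    (h : IsTiling R T) : IsTiling (R.image σ) (T.image fun D => D.image σ) := by
  refine ⟨?_, ?_⟩
  · intro D hD
    rw [mem_image] at hD
    obtain ⟨D', hD', rfl⟩ := hD
    obtain ⟨h1, p, q, hpq, h2⟩ := h.1 D' hD'
    refine ⟨image_subset_image h1, σ p, σ q, hadj p q hpq, ?_⟩
    rw [h2]
    simp [image_insert]
  · intro c hc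
    rw [mem_image] at hc
    obtain ⟨c', hc', rfl⟩ := hc
    obtain ⟨D, ⟨hD1, hD2⟩, hD3⟩ := h.2 c' hc'
    refine ⟨D.image σ, ⟨mem_image_of_mem _ hD1, mem_image_of_mem _ hD2⟩, ?_⟩
    rintro D' ⟨hD', hcD'⟩
    rw [mem_image] at hD'
    obtain ⟨D'', hD'', rfl⟩ := hD'
    rw [hD3 D'' ⟨hD'', ?_⟩]
    rw [mem_image] at hcD'
    obtain ⟨c'', hc'', he⟩ := hcD'
    rwa [← hσ.injective he]

lemma numTilings_image {σ : ℤ × ℤ → ℤ × ℤ} (hσ : Function.Involutive σ)
    (hadj : ∀ p q, Adj p q → Adj (σ p) (σ q)) (R : Finset (ℤ × ℤ)) :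
    numTilings (R.image σ) = numTilings R := by
  have hid : ∀ S : Finset (ℤ × ℤ), (S.image σ).image σ = S := by
    intro S
    rw [image_image, show σ ∘ σ = id from hσ.comp_self, image_id]
  set F : Finset (Finset (ℤ × ℤ)) → Finset (Finset (ℤ × ℤ)) := fun T => T.image fun D => D.image σ
    with hF
  have hFF : ∀ T, F (F T) = T := by
    intro T
    rw [hF]
    simp only
    rw [image_image]
    have : ((fun D : Finset (ℤ × ℤ) => D.image σ) ∘ fun D => D.image σ) = id := by
      funext D; exact hid D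
    rw [this, image_id]
  have hinj : Function.Injective F := (Function.LeftInverse.injective hFF)
  unfold numTilings
  have hset : {T | IsTiling (R.image σ) T} = F '' {T | IsTiling R T} := by
    ext T
    constructor
    · intro hT
      refine ⟨F T, ?_, hFF T⟩
      have := isTiling_image hσ hadj (show IsTiling (R.image σ) T from hT)
      rw [hid] at this
      exact this
    · rintro ⟨T', hT', rfl⟩
      exact isTiling_image hσ hadj hT'
  rw [hset, Set.ncard_image_of_injective _ hinj]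

/-- the central reflection of the square lattice of unit cells -/
def refl (p : ℤ × ℤ) : ℤ × ℤ := (-1 - p.1, -1 - p.2)

lemma refl_invol : Function.Involutive refl := by
  intro p; unfold refl; ext <;> simp

lemma refl_adj (p q : ℤ × ℤ) (h : Adj p q) : Adj (refl p) (refl q) := by
  unfold Adj refl at *; simp only; omega

end reflection

/-- the region of the problem: the two deleted unit squares have centres `(-1/2,-1/2)` and
`(1/2,3/2)` -/
noncomputable def knightRegion (n : ℕ) : Finset (ℤ × ℤ) := aztec n \ {(-1, -1), (0, 1)}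

theorem numTilings_knight (n : ℕ) (hn : 2 ≤ n) :
    (numTilings (knightRegion n) : ℚ) = 2 ^ (n * (n + 1) / 2) * val n := by
  rw [← count_main n hn]
  norm_cast
  rcases Nat.even_or_odd n with he | ho
  · congr 1
    have : 2 * ((n / 2 : ℕ) : ℤ) = n := by
      rw [Nat.even_iff] at he; omega
    unfold knightRegion Rg
    rw [this]
    congr 3 <;> ring_nf
  · rw [← numTilings_image refl_invol refl_adj]
    congr 1
    have h2 : 2 * ((n / 2 : ℕ) : ℤ) = n - 1 := by
      rw [Nat.odd_iff] at ho; omega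
    ext p
    rw [mem_image, mem_Rg]
    constructor
    · rintro ⟨q, hq, rfl⟩
      unfold knightRegion at hq
      rw [mem_sdiff, mem_aztec, mem_insert, mem_singleton, Prod.ext_iff, Prod.ext_iff, not_or] at hq
      unfold refl
      simp only at hq ⊢
      omega
    · intro hp
      refine ⟨refl p, ?_, refl_invol p⟩
      unfold knightRegion
      rw [mem_sdiff, mem_aztec, mem_insert, mem_singleton, Prod.ext_iff, Prod.ext_iff, not_or]
      unfold refl
      simp only
      omega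

end Run7.h775.Knight
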