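import Pool.Agent.Run7.h775.Knight.Values

/-!
# The value of the two by two determinant in the four residue classes
-/

namespace Run7.h775.Knight

open Polynomial Finset Pool.Agent.Helper848.AztecDet

/-- the closed form divided by `2^(n(n+1)/2)` -/
def val (n : ℕ) : ℚ :=
  if n % 4 = 0 then (n / 4 : ℕ) / 2 * am (n / 4) ^ 2 * (1 + am (n / 4) ^ 2)
  else if n % 4 = 1 then (2 * (n / 4 : ℕ) + 1) / 4 * am (n / 4) ^ 2 * (1 - am (n / 4) ^ 2)
  else if n % 4 = 2 then (2 * (n / 4 : ℕ) + 1) / 4 * am (n / 4) ^ 2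
  else ((n / 4 : ℕ) + 1) / 2 * am (n / 4 + 1) ^ 2

lemma val0 (m : ℕ) : val (4 * m) = m / 2 * am m ^ 2 * (1 + am m ^ 2) := by
  unfold val
  rw [if_pos (by omega), show 4 * m / 4 = m by omega]

lemma val1 (m : ℕ) : val (4 * m + 1) = (2 * m + 1) / 4 * am m ^ 2 * (1 - am m ^ 2) := by
  unfold val
  rw [if_neg (by omega), if_pos (by omega), show (4 * m + 1) / 4 = m by omega]

lemma val2 (m : ℕ) : val (4 * m + 2) = (2 * m + 1) / 4 * am m ^ 2 := by
  unfold val
  rw [if_neg (by omega), if_neg (by omega), if_pos (by omega), show (4 * m + 2) / 4 = m by omega]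

lemma val3 (m : ℕ) : val (4 * m + 3) = (m + 1) / 2 * am (m + 1) ^ 2 := by
  unfold val
  rw [if_neg (by omega), if_neg (by omega), if_neg (by omega), show (4 * m + 3) / 4 = m by omega]

lemma am_pos (m : ℕ) : 0 < am m := by
  unfold am
  have := Nat.centralBinom_pos m
  positivity

lemma am_le_one (m : ℕ) : am m ≤ 1 := by
  unfold am
  rw [div_le_one (by positivity)]
  have h1 : Nat.centralBinom m ≤ 2 ^ (2 * m) := Nat.choose_le_two_pow _ _
  have h2 : (Nat.centralBinom m : ℚ) ≤ 2 ^ (2 * m) := by exact_mod_cast h1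
  rw [pow_mul] at h2
  norm_num at h2 ⊢
  exact h2

lemma val_nonneg (n : ℕ) : 0 ≤ val n := by
  have h1 := am_pos (n / 4)
  have h2 := am_le_one (n / 4)
  have h3 : 0 ≤ 1 - am (n / 4) ^ 2 := by nlinarith
  unfold val
  split_ifs <;> positivity

/-- the pair of columns exists and gives the value -/
lemma exists_cols (n : ℕ) (hn : 2 ≤ n) : ∃ Ha Hb : ℚ[X], IsCol n (n / 2) (n / 2 + 1) Ha ∧
    IsCol n (n / 2) (n / 2) Hb ∧
    Ha.coeff (n / 2 - 1) * (1 - 2 * Hb.coeff (n / 2)) +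
      2 * (Hb.coeff (n / 2 - 1) * Ha.coeff (n / 2)) = val n := by
  obtain ⟨m, hm | hm | hm | hm⟩ : ∃ m, n = 4 * m ∨ n = 4 * m + 1 ∨ n = 4 * m + 2 ∨ n = 4 * m + 3 :=
    ⟨n / 4, by omega⟩
  · subst hm
    have hm1 : 1 ≤ m := by omega
    rw [val0, show 4 * m / 2 = 2 * m by omega]
    have c1 := col_even1 (2 * m) (by omega)
    have c0 := col_even0 (2 * m) (by omega)
    rw [show 2 * (2 * m) = 4 * m by ring] at c0 c1
    refine ⟨_, _, c1, c0, ?_⟩
    -- top coefficient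
    have hα : (W0 (2 * m)).coeff (2 * m) =
        ((4 : ℚ) ^ (2 * m))⁻¹ * ((-1) ^ m * ((2 * m).choose m / 2)) := by
      unfold W0
      rw [coeff_C_mul, Wp_top _ (by omega), show 2 * m / 2 = m by omega]
      congr 2
      obtain ⟨k, rfl⟩ : ∃ k, m = k + 1 := ⟨m - 1, by omega⟩
      have e8 : ((2 * (k + 1)).choose (k + 1) : ℚ) = 2 * ((2 * k + 1).choose k : ℚ) := by
        have h1 : (2 * (k + 1)).choose (k + 1) = 2 * (2 * k + 1).choose k := by
          rw [show 2 * (k + 1) = (2 * k + 1) + 1 by ring, Nat.choose_succ_succ,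
            Nat.choose_symm_half]
          ring
        exact_mod_cast h1
      rw [e8, show 2 * (k + 1) - 1 = 2 * k + 1 by omega, Nat.choose_symm_half]
      ring
    have hs : ((-1 : ℚ) ^ m) * (-1) ^ m = 1 := by rw [← mul_pow]; norm_num
    have e1 : (X * Q0 (2 * m) + C ((W0 (2 * m)).coeff (2 * m)) * (1 - X ^ 2) ^ (2 * m)).coeff
        (2 * m - 1) = m * am m ^ 2 - (1 - am m ^ 2) / 4 := by
      rw [coeff_add, p_even m hm1, coeff_C_mul]
      obtain ⟨k, rfl⟩ : ∃ k, m = k + 1 := ⟨m - 1, by omega⟩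
      rw [show 2 * (k + 1) - 1 = 2 * k + 1 by omega, coeff_one_sub_sq_odd]
      ring
    have e2 : (X * Q0 (2 * m) + C ((W0 (2 * m)).coeff (2 * m)) * (1 - X ^ 2) ^ (2 * m)).coeff
        (2 * m) = (1 + am m ^ 2) / 4 := by
      rw [coeff_add, coeff_C_mul, coeff_one_sub_sq_even, hα]
      have h1 : (X * Q0 (2 * m)).coeff (2 * m) = (1 - am m ^ 2) / 4 := by
        rw [← q_even m hm1, ← q_pred _ (by omega)]
        obtain ⟨k, rfl⟩ : ∃ k, m = k + 1 := ⟨m - 1, by omega⟩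
        rw [show 2 * (k + 1) = 2 * k + 1 + 1 by ring, coeff_X_mul, Nat.add_sub_cancel]
      have h2 := am_sq m
      rw [h1]
      linear_combination (((4 : ℚ) ^ (2 * m))⁻¹ * ((2 * m).choose m : ℚ) ^ 2 / 2) * hs + h2 / 2
    rw [e1, e2, q_pred _ (by omega), q_even m hm1]
    ring
  · subst hm
    have hm1 : 1 ≤ m := by omega
    rw [val1, show (4 * m + 1) / 2 = 2 * m by omega]
    have hs : ((-1 : ℚ) ^ m) * (-1) ^ m = 1 := by rw [← mul_pow]; norm_num
    set β : ℚ := ((4 : ℚ) ^ (2 * m))⁻¹ * ((-1) ^ m * ((2 * m).choose m / 2)) with hβ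
    have hβ2 : β * 2 ^ (2 * m + 1) = (W0 (2 * m)).eval 1 := by
      unfold W0
      rw [eval_mul, eval_C, Wp_eval_even, hβ]
      ring
    have c1 := col_odd (2 * m) 1 le_rfl β hβ2
    have c0 := col_odd (2 * m) 0 (by norm_num) β hβ2
    rw [show 2 * (2 * m) = 4 * m by ring] at c0 c1
    rw [zero_add, pow_zero, one_mul] at c0
    rw [add_comm 1, pow_one] at c1
    refine ⟨_, _, c1, c0, ?_⟩
    have hmid : (C β * (1 - X ^ 2) ^ (2 * m) : ℚ[X]).coeff (2 * m) = am m ^ 2 / 2 := by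
      rw [coeff_C_mul, coeff_one_sub_sq_even, hβ]
      have h2 := am_sq m
      linear_combination (((4 : ℚ) ^ (2 * m))⁻¹ * ((2 * m).choose m : ℚ) ^ 2 / 2) * hs + h2 / 2
    have hpred : (C β * (1 - X ^ 2) ^ (2 * m) : ℚ[X]).coeff (2 * m - 1) = 0 := by
      obtain ⟨k, rfl⟩ : ∃ k, m = k + 1 := ⟨m - 1, by omega⟩
      rw [coeff_C_mul, show 2 * (k + 1) - 1 = 2 * k + 1 by omega, coeff_one_sub_sq_odd, mul_zero]
    have h1 : (X * Q0 (2 * m)).coeff (2 * m) = (1 - am m ^ 2) / 4 := by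
      rw [← q_even m hm1, ← q_pred _ (by omega)]
      obtain ⟨k, rfl⟩ : ∃ k, m = k + 1 := ⟨m - 1, by omega⟩
      rw [show 2 * (k + 1) = 2 * k + 1 + 1 by ring, coeff_X_mul, Nat.add_sub_cancel]
    rw [coeff_add, coeff_add, coeff_add, coeff_add, hmid, hpred, h1, p_even m hm1,
      q_pred _ (by omega), q_even m hm1]
    ring
  · subst hm
    rw [val2, show (4 * m + 2) / 2 = 2 * m + 1 by omega]
    have c1 := col_even1 (2 * m + 1) (by omega)
    have c0 := col_even0 (2 * m + 1) (by omega)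
    rw [show 2 * (2 * m + 1) = 4 * m + 2 by ring] at c0 c1
    refine ⟨_, _, c1, c0, ?_⟩
    have hs : ((-1 : ℚ) ^ m) * (-1) ^ m = 1 := by rw [← mul_pow]; norm_num
    have hα : (W0 (2 * m + 1)).coeff (2 * m + 1) =
        ((4 : ℚ) ^ (2 * m + 1))⁻¹ * ((-1) ^ m * ((2 * m).choose m : ℚ)) := by
      unfold W0
      rw [coeff_C_mul, Wp_top _ (by omega), show (2 * m + 1) / 2 = m by omega, Nat.add_sub_cancel]
    have h1 : (X * Q0 (2 * m + 1)).coeff (2 * m + 1) = 1 / 4 := by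
      rw [← q_odd m, ← q_pred _ (by omega), coeff_X_mul, Nat.add_sub_cancel]
    -- (m+1) C(2m+1,m) = (2m+1) C(2m,m)
    have hc : ((m : ℚ) + 1) * ((2 * m + 1).choose m : ℚ) = (2 * m + 1) * ((2 * m).choose m : ℚ) := by
      have h2 : (2 * m + 1).choose m * (m + 1) = (2 * m + 1) * (2 * m).choose m := by
        have h3 := Nat.add_one_mul_choose_eq (2 * m) m
        rw [Nat.choose_symm_half] at h3
        exact h3.symm
      have h3 : ((2 * m + 1).choose m : ℚ) * (m + 1) = (2 * m + 1) * ((2 * m).choose m : ℚ) := by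
        exact_mod_cast h2
      linarith
    have hprod : ((4 : ℚ) ^ (2 * m + 1))⁻¹ * ((2 * m).choose m : ℚ) * ((2 * m + 1).choose m : ℚ) *
        (4 * (m + 1)) = (2 * m + 1) * am m ^ 2 := by
      rw [← am_sq, pow_succ (4 : ℚ) (2 * m), mul_inv]
      linear_combination (((4 : ℚ) ^ (2 * m))⁻¹ * ((2 * m).choose m : ℚ)) * hc
    have hsucc := am_succ m
    have hm0 : ((m : ℚ) + 1) ≠ 0 := by positivity
    have e1 : (X * Q0 (2 * m + 1) + C ((W0 (2 * m + 1)).coeff (2 * m + 1)) *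
        (1 - X ^ 2) ^ (2 * m + 1)).coeff (2 * m + 1 - 1) = (2 * m + 1) * am m ^ 2 / 2 - 1 / 4 := by
      rw [Nat.add_sub_cancel, coeff_add, p_odd, coeff_C_mul, coeff_one_sub_sq_even, hα]
      have e3 : ((4 : ℚ) ^ (2 * m + 1))⁻¹ * ((-1) ^ m * ((2 * m).choose m : ℚ)) *
          ((-1) ^ m * ((2 * m + 1).choose m : ℚ)) =
          ((4 : ℚ) ^ (2 * m + 1))⁻¹ * ((2 * m).choose m : ℚ) * ((2 * m + 1).choose m : ℚ) := by
        linear_combination (((4 : ℚ) ^ (2 * m + 1))⁻¹ * ((2 * m).choose m : ℚ) *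
          ((2 * m + 1).choose m : ℚ)) * hs
      rw [e3]
      have e4 : am (m + 1) = (2 * m + 1) * am m / (2 * (m + 1)) := by
        field_simp
        linarith
      have e5 : ((4 : ℚ) ^ (2 * m + 1))⁻¹ * ((2 * m).choose m : ℚ) * ((2 * m + 1).choose m : ℚ) =
          (2 * m + 1) * am m ^ 2 / (4 * (m + 1)) := by
        rw [eq_div_iff (by positivity)]
        exact hprod
      rw [e4, e5]
      field_simp
      ring
    have e2 : (X * Q0 (2 * m + 1) + C ((W0 (2 * m + 1)).coeff (2 * m + 1)) *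
        (1 - X ^ 2) ^ (2 * m + 1)).coeff (2 * m + 1) = 1 / 4 := by
      rw [coeff_add, h1, coeff_C_mul, coeff_one_sub_sq_odd]
      ring
    rw [e1, e2, q_pred _ (by omega), q_odd]
    ring
  · subst hm
    rw [val3, show (4 * m + 3) / 2 = 2 * m + 1 by omega]
    have hβ2 : (0 : ℚ) * 2 ^ (2 * m + 1 + 1) = (W0 (2 * m + 1)).eval 1 := by
      unfold W0
      rw [eval_mul, eval_C, Wp_eval_odd]
      ring
    have c1 := col_odd (2 * m + 1) 1 le_rfl 0 hβ2
    have c0 := col_odd (2 * m + 1) 0 (by norm_num) 0 hβ2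
    rw [show 2 * (2 * m + 1) + 1 = 4 * m + 3 by ring] at c0 c1
    rw [zero_add, pow_zero, one_mul, C_0, zero_mul, add_zero] at c0
    rw [add_comm 1, pow_one, C_0, zero_mul, add_zero] at c1
    refine ⟨_, _, c1, c0, ?_⟩
    have h1 : (X * Q0 (2 * m + 1)).coeff (2 * m + 1) = 1 / 4 := by
      rw [← q_odd m, ← q_pred _ (by omega), coeff_X_mul, Nat.add_sub_cancel]
    rw [h1, q_pred _ (by omega), q_odd, Nat.add_sub_cancel, p_odd]
    ring

end Run7.h775.Knight
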