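import Pool.Agent.Run7.h775.Knight.Coef
import Pool.Agent.Helper848.AztecDet

/-!
# Columns of the inverse Kasteleyn matrix near the centre
-/

namespace Run7.h775.Knight

open Polynomial Finset Pool.Agent.Helper848.AztecDet

/-- Green function column as polynomials -/
noncomputable def FF (n h : ℕ) (U W : ℚ[X]) (s : ℕ) : ℚ[X] :=
  if s ≤ h then C ((-1) ^ (h - s)) * ((1 + X) ^ s * (1 - X) ^ (h - s) * U)
  else C ((-1) ^ (s - h - 1)) * ((1 + X) ^ (s - h - 1) * (1 - X) ^ (n - s) * W)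

lemma FF_self (n h : ℕ) (U W : ℚ[X]) : FF n h U W h = (1 + X) ^ h * U := by
  unfold FF
  rw [if_pos le_rfl]
  simp

lemma FF_coeff_top {n h : ℕ} {U W : ℚ[X]} (hU : U.natDegree + h + 1 ≤ n) (hW : W.natDegree ≤ h)
    (s : ℕ) (hs : s ≤ n) : (FF n h U W s).coeff n = 0 := by
  unfold FF
  split_ifs with h1
  · rw [coeff_C_mul, coeff_eq_zero_of_natDegree_lt, mul_zero]
    refine lt_of_le_of_lt natDegree_mul_le ?_
    have := deg_pp s (h - s)
    omega
  · rw [coeff_C_mul, coeff_eq_zero_of_natDegree_lt, mul_zero]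
    refine lt_of_le_of_lt natDegree_mul_le ?_
    have := deg_pp (s - h - 1) (n - s)
    omega

lemma FF_rec {n h : ℕ} (hn : h < n) {U W T : ℚ[X]}
    (hb : (1 + X) ^ (h + 1) * U + (1 - X) ^ (n - h) * W = T) (s : ℕ) (hs : s < n) :
    (1 - X) * FF n h U W (s + 1) + (1 + X) * FF n h U W s = if s = h then T else 0 := by
  rcases lt_trichotomy s h with h1 | h1 | h1
  · rw [if_neg h1.ne]
    unfold FF
    rw [if_pos (by omega : s + 1 ≤ h), if_pos h1.le]
    obtain ⟨j, rfl⟩ : ∃ j, h = s + j + 1 := ⟨h - s - 1, by omega⟩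
    rw [show s + j + 1 - s = j + 1 by omega, show s + j + 1 - (s + 1) = j by omega]
    rw [pow_succ (-1 : ℚ) j, C_mul]
    simp only [C_neg, C_1]
    ring
  · subst h1
    rw [if_pos rfl, ← hb]
    unfold FF
    rw [if_neg (by omega), if_pos le_rfl]
    rw [show s + 1 - s - 1 = 0 by omega, Nat.sub_self]
    rw [show n - s = (n - (s + 1)) + 1 by omega]
    simp
    ring
  · rw [if_neg h1.ne']
    unfold FF
    rw [if_neg (by omega), if_neg (by omega)]
    obtain ⟨j, rfl⟩ : ∃ j, s = h + 1 + j := ⟨s - h - 1, by omega⟩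
    rw [show h + 1 + j + 1 - h - 1 = j + 1 by omega, show h + 1 + j - h - 1 = j by omega,
      show n - (h + 1 + j) = (n - (h + 1 + j + 1)) + 1 by omega, pow_succ (-1 : ℚ) j, C_mul]
    simp only [C_neg, C_1]
    ring

lemma column {n h t0 : ℕ} (hn : h < n) {U W : ℚ[X]} (hU : U.natDegree + h + 1 ≤ n)
    (hW : W.natDegree ≤ h) (hb : (1 + X) ^ (h + 1) * U + (1 - X) ^ (n - h) * W = X ^ t0) (o : O n) :
    ∑ x : E n, K0 n o x * (FF n h U W x.1).coeff x.2 =
      if (o.1 : ℕ) = h ∧ (o.2 : ℕ) = t0 then 1 else 0 := by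
  rw [K0_apply n (FF n h U W) (fun s hs => FF_coeff_top hU hW s hs) o,
    FF_rec hn hb o.1 o.1.2]
  by_cases h1 : (o.1 : ℕ) = h
  · rw [if_pos h1, coeff_X_pow]
    by_cases h2 : (o.2 : ℕ) = t0 <;> simp [h1, h2]
  · rw [if_neg h1, if_neg (fun hc => h1 hc.1), coeff_zero]

/-- top coefficient of `(1+X)^a (1-X)^b` -/
lemma coeff_pp_top (a b : ℕ) : ((1 + X) ^ a * (1 - X) ^ b : ℚ[X]).coeff (a + b) = (-1) ^ b := by
  have ha : ((1 + X : ℚ[X]) ^ a).natDegree ≤ a := by simpa using deg_pp a 0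
  have hb : ((1 - X : ℚ[X]) ^ b).natDegree ≤ b := by simpa using deg_pp 0 b
  rw [coeff_mul_add_eq_of_natDegree_le ha hb]
  have h1 : ((1 + X : ℚ[X]) ^ a).coeff a = 1 := by
    rw [coeff_one_add_X_pow]; simp
  have h2 : ((1 - X : ℚ[X]) ^ b).coeff b = (-1) ^ b := by
    have : (1 - X : ℚ[X]) ^ b = ((1 + X) ^ b).comp (-X) := by simp; ring
    rw [this, coeff_comp_neg, coeff_one_add_X_pow]; simp
  rw [h1, h2, one_mul]

lemma Wp_top (h : ℕ) (hh : 1 ≤ h) : (Wp h).coeff h = (-1) ^ (h / 2) * ((h - 1).choose (h / 2) : ℚ) := by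
  unfold Wp
  rw [finsetSum_coeff]
  obtain ⟨k, rfl⟩ : ∃ k, h = k + 1 := ⟨h - 1, by omega⟩
  have h1 : ∀ t ∈ range (tau (k + 1)), (C (cf (k + 1) t) * ((1 + X) ^ (2 * t) *
      (1 - X) ^ (k + 1 - 2 * t)) : ℚ[X]).coeff (k + 1) = (-1) ^ t * ((k + 1).choose t : ℚ) := by
    intro t ht
    rw [mem_range, tau] at ht
    rw [coeff_C_mul]
    have h2 := coeff_pp_top (2 * t) (k + 1 - 2 * t)
    rw [show 2 * t + (k + 1 - 2 * t) = k + 1 by omega] at h2
    rw [h2]
    unfold cf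
    rw [mul_right_comm, ← pow_add]
    congr 1
    exact npc (by omega)
  rw [sum_congr rfl h1]
  have h3 := Int.alternating_sum_range_choose_eq_choose (n := k) (m := (k + 1) / 2)
  have h4 : ((∑ t ∈ range ((k + 1) / 2 + 1), (-1) ^ t * ((k + 1).choose t : ℤ) : ℤ) : ℚ) =
      (((-1) ^ ((k + 1) / 2) * (k.choose ((k + 1) / 2) : ℤ) : ℤ) : ℚ) := by rw [h3]
  push_cast at h4
  unfold tau
  rw [h4]
  simp

lemma Wp_eval_odd (m : ℕ) : (Wp (2 * m + 1)).eval 1 = 0 := by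
  unfold Wp
  rw [eval_finsetSum]
  apply sum_eq_zero
  intro t ht
  rw [mem_range, tau] at ht
  rw [show 2 * m + 1 - 2 * t = (2 * m - 2 * t) + 1 by omega]
  simp [pow_succ]

lemma Wp_eval_even (m : ℕ) :
    (Wp (2 * m)).eval 1 = (-1) ^ m * ((2 * m).choose m : ℚ) * 2 ^ (2 * m) := by
  unfold Wp
  rw [eval_finsetSum]
  have e4 : tau (2 * m) = m + 1 := by unfold tau; omega
  rw [e4, sum_range_succ, sum_eq_zero, zero_add]
  · unfold cf
    rw [Nat.sub_self, show 2 * m - m = m by omega]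
    simp
    norm_num
  · intro t ht
    rw [mem_range] at ht
    rw [show 2 * m - 2 * t = (2 * m - 2 * t - 1) + 1 by omega]
    simp [pow_succ]

end Run7.h775.Knight
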