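import Mathlib

/-!
# The half binomial sums behind the knight's-move Aztec diamond
-/

namespace Run7.h775.Knight

open Polynomial Finset

/-- the coefficient `(-1)^(h-t) * choose h t` -/
def cf (h t : ℕ) : ℚ := (-1) ^ (h - t) * (h.choose t : ℚ)

/-- the cut -/
def tau (h : ℕ) : ℕ := h / 2 + 1

/-- low cofactor -/
noncomputable def Wp (h : ℕ) : ℚ[X] :=
  ∑ t ∈ range (tau h), C (cf h t) * ((1 + X) ^ (2 * t) * (1 - X) ^ (h - 2 * t))

/-- high cofactor -/
noncomputable def Up (h : ℕ) : ℚ[X] :=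
  ∑ t ∈ Ico (tau h) (h + 1), C (cf h t) * ((1 + X) ^ (2 * t - h - 1) * (1 - X) ^ (2 * (h - t)))

/-- the central Green function -/
noncomputable def Qp (h : ℕ) : ℚ[X] :=
  ∑ t ∈ Ico (tau h) (h + 1), C (cf h t) * ((1 + X) ^ (2 * t - 1) * (1 - X) ^ (2 * (h - t)))

/-- one term -/
noncomputable def Tp (h t : ℕ) : ℚ[X] :=
  C (cf h t) * ((1 + X) ^ (2 * t) * (1 - X) ^ (2 * (h - t)))

/-- high part -/
noncomputable def Sp (h : ℕ) : ℚ[X] := ∑ t ∈ Ico (tau h) (h + 1), Tp h t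

lemma Sp_eq (h : ℕ) : Sp h = (1 + X) * Qp h := by
  unfold Sp Qp Tp
  rw [mul_sum]
  apply sum_congr rfl
  intro t ht
  rw [mem_Ico, tau] at ht
  rw [show 2 * t = (2 * t - 1) + 1 by omega]
  simp only [Nat.add_sub_cancel]
  ring

lemma Qp_eq (h : ℕ) : Qp h = (1 + X) ^ h * Up h := by
  unfold Qp Up
  rw [mul_sum]
  apply sum_congr rfl
  intro t ht
  rw [mem_Ico, tau] at ht
  rw [show 2 * t - 1 = h + (2 * t - h - 1) by omega, pow_add]
  ring

lemma sum_T (h : ℕ) : ∑ t ∈ range (h + 1), Tp h t = C ((4 : ℚ) ^ h) * X ^ h := by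
  have h1 : ((1 + X) ^ 2 + -(1 - X) ^ 2 : ℚ[X]) ^ h = C ((4 : ℚ) ^ h) * X ^ h := by
    rw [show ((1 + X) ^ 2 + -(1 - X) ^ 2 : ℚ[X]) = C 4 * X by
      rw [show (C 4 : ℚ[X]) = 4 from rfl]; ring]
    rw [mul_pow, C_pow]
  rw [← h1, add_pow]
  apply sum_congr rfl
  intro t _
  unfold Tp cf
  have e1 : (C ((-1) ^ (h - t) * (h.choose t : ℚ)) : ℚ[X]) =
      (-1) ^ (h - t) * ((h.choose t : ℕ) : ℚ[X]) := by
    rw [C_mul, map_pow, C_neg, C_1, C_eq_natCast]
  rw [e1, neg_pow ((1 - X) ^ 2 : ℚ[X]), pow_mul, pow_mul]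
  generalize ((1 + X) ^ 2 : ℚ[X]) = A
  generalize ((1 - X) ^ 2 : ℚ[X]) = B
  ring

lemma low_T (h : ℕ) : ∑ t ∈ range (tau h), Tp h t = (1 - X) ^ h * Wp h := by
  unfold Wp Tp
  rw [mul_sum]
  apply sum_congr rfl
  intro t ht
  rw [mem_range, tau] at ht
  rw [show 2 * (h - t) = h + (h - 2 * t) by omega, pow_add]
  ring

lemma tau_le (h : ℕ) : tau h ≤ h + 1 := by unfold tau; omega

lemma bezout (h : ℕ) : (1 + X) ^ (h + 1) * Up h + (1 - X) ^ h * Wp h = C ((4 : ℚ) ^ h) * X ^ h := by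
  rw [← sum_T, ← sum_range_add_sum_Ico _ (tau_le h), low_T, pow_succ', mul_assoc, ← Qp_eq, ← Sp_eq]
  unfold Sp
  ring

lemma deg_pp (a b : ℕ) : ((1 + X) ^ a * (1 - X) ^ b : ℚ[X]).natDegree ≤ a + b := by
  refine natDegree_mul_le.trans ?_
  have h1 : ((1 + X : ℚ[X]) ^ a).natDegree ≤ a := by
    refine natDegree_pow_le.trans ?_
    have : (1 + X : ℚ[X]).natDegree ≤ 1 := (natDegree_add_le _ _).trans (by simp)
    calc a * (1 + X : ℚ[X]).natDegree ≤ a * 1 := Nat.mul_le_mul_left _ this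
      _ = _ := mul_one _
  have h2 : ((1 - X : ℚ[X]) ^ b).natDegree ≤ b := by
    refine natDegree_pow_le.trans ?_
    have : (1 - X : ℚ[X]).natDegree ≤ 1 := (natDegree_sub_le _ _).trans (by simp)
    calc b * (1 - X : ℚ[X]).natDegree ≤ b * 1 := Nat.mul_le_mul_left _ this
      _ = _ := mul_one _
  omega

lemma deg_Up (h : ℕ) : (Up h).natDegree ≤ h - 1 := by
  unfold Up
  apply natDegree_sum_le_of_forall_le
  intro t ht
  rw [mem_Ico, tau] at ht
  refine (natDegree_C_mul_le _ _).trans ((deg_pp _ _).trans ?_)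
  omega

lemma deg_Wp (h : ℕ) : (Wp h).natDegree ≤ h := by
  unfold Wp
  apply natDegree_sum_le_of_forall_le
  intro t ht
  rw [mem_range, tau] at ht
  refine (natDegree_C_mul_le _ _).trans ((deg_pp _ _).trans ?_)
  omega

lemma coeff_comp_neg (p : ℚ[X]) (k : ℕ) : (p.comp (-X)).coeff k = (-1) ^ k * p.coeff k := by
  have h1 : (-X : ℚ[X]) = C (-1) * X := by simp
  rw [h1, comp_C_mul_X_coeff, mul_comm]

/-- coefficients of `(1 - X^2)^N` -/
lemma coeff_one_sub_sq (N k : ℕ) :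
    ((1 - X ^ 2 : ℚ[X]) ^ N).coeff k = if 2 ∣ k then (-1) ^ (k / 2) * (N.choose (k / 2) : ℚ) else 0 := by
  have h1 : (1 - X ^ 2 : ℚ[X]) ^ N = expand ℚ 2 (((1 + X) ^ N).comp (-X)) := by
    simp
    ring
  rw [h1, coeff_expand (by norm_num)]
  split_ifs
  · rw [coeff_comp_neg, coeff_one_add_X_pow]
  · rfl

lemma coeff_one_sub_sq_even (N k : ℕ) :
    ((1 - X ^ 2 : ℚ[X]) ^ N).coeff (2 * k) = (-1) ^ k * (N.choose k : ℚ) := by
  rw [coeff_one_sub_sq, if_pos (by simp)]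
  simp

lemma coeff_one_sub_sq_odd (N k : ℕ) :
    ((1 - X ^ 2 : ℚ[X]) ^ N).coeff (2 * k + 1) = 0 := by
  rw [coeff_one_sub_sq, if_neg (by omega)]

/-- palindromic products -/
lemma reflect_pp (a b : ℕ) :
    reflect (a + 2 * b) ((1 + X) ^ a * (1 - X) ^ (2 * b) : ℚ[X]) = (1 + X) ^ a * (1 - X) ^ (2 * b) := by
  have h1 : ∀ a : ℕ, reflect a ((1 + X : ℚ[X]) ^ a) = (1 + X) ^ a := by
    intro a
    induction a with
    | zero => simp
    | succ a ih =>
      rw [pow_succ, reflect_mul _ _ (by simpa using deg_pp a 0) (by simpa using deg_pp 1 0), ih]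
      congr 1
      rw [reflect_add, reflect_one, reflect_one_X, pow_one, add_comm]
  have h2 : ∀ b : ℕ, reflect (2 * b) ((1 - X : ℚ[X]) ^ (2 * b)) = (1 - X) ^ (2 * b) := by
    intro b
    induction b with
    | zero => simp
    | succ b ih =>
      rw [show 2 * (b + 1) = 2 * b + 2 by ring, pow_add,
        reflect_mul _ _ (by simpa using deg_pp 0 (2 * b)) (by simpa using deg_pp 0 2), ih]
      congr 1
      have : ((1 - X : ℚ[X]) ^ 2) = 1 - C 2 * X ^ 1 + X ^ 2 := by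
        rw [show (C 2 : ℚ[X]) = 2 from rfl]; ring
      rw [this, reflect_add, reflect_sub, reflect_one, reflect_C_mul_X_pow, reflect_monomial,
        revAt_le (by norm_num), revAt_le (by norm_num)]
      norm_num
      ring
  rw [reflect_mul _ _ (by simpa using deg_pp a 0) (by simpa using deg_pp 0 (2 * b)), h1, h2]

lemma Qp_reflect (h : ℕ) (hh : 1 ≤ h) : reflect (2 * h - 1) (Qp h) = Qp h := by
  unfold Qp
  have : ∀ s : Finset ℕ, (∀ t ∈ s, tau h ≤ t ∧ t ≤ h) →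
      reflect (2 * h - 1) (∑ t ∈ s, C (cf h t) * ((1 + X) ^ (2 * t - 1) * (1 - X) ^ (2 * (h - t)))) =
      ∑ t ∈ s, C (cf h t) * ((1 + X) ^ (2 * t - 1) * (1 - X) ^ (2 * (h - t))) := by
    intro s
    induction s using Finset.induction_on with
    | empty => intro _; simp
    | insert a s ha ih =>
      intro hs
      rw [sum_insert ha, reflect_add, ih (fun t ht => hs t (mem_insert_of_mem ht))]
      congr 1
      have h1 := hs a (mem_insert_self _ _)
      unfold tau at h1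
      rw [reflect_C_mul]
      congr 1
      have h2 : 2 * h - 1 = (2 * a - 1) + 2 * (h - a) := by omega
      rw [h2, reflect_pp]
  apply this
  intro t ht
  rw [mem_Ico] at ht
  omega

lemma Qp_symm (h : ℕ) (hh : 1 ≤ h) : (Qp h).coeff h = (Qp h).coeff (h - 1) := by
  have h1 := congrArg (fun p => coeff p h) (Qp_reflect h hh)
  simp only [coeff_reflect] at h1
  rw [← h1, revAt_le (by omega)]
  congr 1
  omega

lemma Sp_coeff_h (h : ℕ) (hh : 1 ≤ h) : (Sp h).coeff h = 2 * (Qp h).coeff h := by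
  have h1 : Sp h = Qp h + X * Qp h := by rw [Sp_eq]; ring
  rw [h1, coeff_add]
  obtain ⟨k, rfl⟩ : ∃ k, h = k + 1 := ⟨h - 1, by omega⟩
  rw [coeff_X_mul]
  have h2 := Qp_symm (k + 1) hh
  rw [Nat.add_sub_cancel] at h2
  rw [← h2]
  ring

end Run7.h775.Knight
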