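import Pool.Agent.Run7.h775.Knight.Formula
import Pool.Agent.Helper848.Kast

/-!
# The region and its Kasteleyn matrix
-/

namespace Run7.h775.Knight

open Finset Pool.Agent.Helper848 Pool.Agent.Helper848.AztecDet

/-- The Aztec diamond of order `n`; the pair `(a, b)` stands for the unit square with centre
`(a + 1/2, b + 1/2)`. -/
noncomputable def aztec (n : ℕ) : Finset (ℤ × ℤ) :=
  (Icc (-(n : ℤ)) n ×ˢ Icc (-(n : ℤ)) n).filter fun p => |2 * p.1 + 1| + |2 * p.2 + 1| ≤ 2 * n

lemma mem_aztec (n : ℕ) (p : ℤ × ℤ) : p ∈ aztec n ↔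
    -(n : ℤ) ≤ p.1 + p.2 + 1 ∧ p.1 + p.2 + 1 ≤ n ∧ -(n : ℤ) ≤ p.1 - p.2 ∧ p.1 - p.2 ≤ n := by
  unfold aztec
  rw [mem_filter, mem_product, mem_Icc, mem_Icc]
  rcases abs_cases (2 * p.1 + 1) with ⟨h1, h1'⟩ | ⟨h1, h1'⟩ <;>
  rcases abs_cases (2 * p.2 + 1) with ⟨h2, h2'⟩ | ⟨h2, h2'⟩ <;>
  rw [h1, h2] <;> constructor <;> intro h <;> omega

/-- the region used for the computation -/
noncomputable def Rg (n h : ℕ) : Finset (ℤ × ℤ) :=
  aztec n \ {(-1, 2 * (h : ℤ) - 1 - n), (0, 2 * (h : ℤ) + 1 - n)}

lemma mem_Rg (n h : ℕ) (p : ℤ × ℤ) : p ∈ Rg n h ↔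
    (-(n : ℤ) ≤ p.1 + p.2 + 1 ∧ p.1 + p.2 + 1 ≤ n ∧ -(n : ℤ) ≤ p.1 - p.2 ∧ p.1 - p.2 ≤ n) ∧
      ¬ (p.1 = -1 ∧ p.2 = 2 * (h : ℤ) - 1 - n) ∧ ¬ (p.1 = 0 ∧ p.2 = 2 * (h : ℤ) + 1 - n) := by
  unfold Rg
  rw [mem_sdiff, mem_aztec, mem_insert, mem_singleton, Prod.ext_iff, Prod.ext_iff, not_or]

/-- cell of an element of `E n` -/
def cx (n : ℕ) (k l : ℕ) : ℤ × ℤ := ((l : ℤ) - k, (l : ℤ) + k - n)

/-- cell of an element of `O n` -/
def co (n : ℕ) (i j : ℕ) : ℤ × ℤ := ((j : ℤ) - i - 1, (j : ℤ) + i - n)

lemma above_co {n h : ℕ} (h1 : 1 ≤ h) (hn : h < n) (i j : ℕ) (hi : i < n) :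
    above (Rg n h) (co n i j) = if i = h ∧ j ≤ h then n - j - 1 else n - j := by
  have hinj : Function.Injective (fun j' : ℕ => co n i j') := by
    intro a b hab
    have := congrArg Prod.fst hab
    simp only [co] at this
    omega
  split_ifs with hc
  · have : (Rg n h).filter (fun q => q.2 - q.1 = (co n i j).2 - (co n i j).1 ∧ (co n i j).1 < q.1) =
        ((Ioc j n).erase (h + 1)).image (fun j' : ℕ => co n i j') := by
      ext q
      rw [mem_filter, mem_Rg, mem_image]
      constructor
      · rintro ⟨⟨⟨a1, a2, a3, a4⟩, a5, a6⟩, a7, a8⟩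
        simp only [co] at a7 a8
        refine ⟨(q.1 + i + 1).toNat, ?_, ?_⟩
        · rw [mem_erase, mem_Ioc]
          refine ⟨?_, ?_, ?_⟩
          · intro h3
            apply a6
            omega
          · omega
          · omega
        · ext <;> simp only [co] <;> omega
      · rintro ⟨j', hj', rfl⟩
        rw [mem_erase, mem_Ioc] at hj'
        obtain ⟨b1, b2, b3⟩ := hj'
        simp only [co]
        refine ⟨⟨⟨?_, ?_, ?_, ?_⟩, ?_, ?_⟩, ?_, ?_⟩ <;> omega
    unfold above
    rw [this, card_image_of_injective _ hinj, card_erase_of_mem (by rw [mem_Ioc]; omega), Nat.card_Ioc]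
  · have : (Rg n h).filter (fun q => q.2 - q.1 = (co n i j).2 - (co n i j).1 ∧ (co n i j).1 < q.1) =
        (Ioc j n).image (fun j' : ℕ => co n i j') := by
      ext q
      rw [mem_filter, mem_Rg, mem_image]
      constructor
      · rintro ⟨⟨⟨a1, a2, a3, a4⟩, a5, a6⟩, a7, a8⟩
        simp only [co] at a7 a8
        refine ⟨(q.1 + i + 1).toNat, ?_, ?_⟩
        · rw [mem_Ioc]
          omega
        · ext <;> simp only [co] <;> omega
      · rintro ⟨j', hj', rfl⟩
        rw [mem_Ioc] at hj'
        obtain ⟨b1, b2⟩ := hj'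
        simp only [co]
        refine ⟨⟨⟨?_, ?_, ?_, ?_⟩, ?_, ?_⟩, ?_, ?_⟩ <;> omega
    unfold above
    rw [this, card_image_of_injective _ hinj, Nat.card_Ioc]

lemma below_cx {n h : ℕ} (h1 : 1 ≤ h) (hn : h < n) (k l : ℕ) (hk : k ≤ n) (hl : l < n) :
    below (Rg n h) (cx n k l) = if k = h ∧ h ≤ l then l - 1 else l := by
  have hinj : Function.Injective (fun l' : ℕ => cx n k l') := by
    intro a b hab
    have := congrArg Prod.fst hab
    simp only [cx] at this
    omega
  split_ifs with hc
  · have : (Rg n h).filter (fun q => q.2 - q.1 = (cx n k l).2 - (cx n k l).1 ∧ q.1 < (cx n k l).1) =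
        ((range l).erase (h - 1)).image (fun l' : ℕ => cx n k l') := by
      ext q
      rw [mem_filter, mem_Rg, mem_image]
      constructor
      · rintro ⟨⟨⟨a1, a2, a3, a4⟩, a5, a6⟩, a7, a8⟩
        simp only [cx] at a7 a8
        refine ⟨(q.1 + k).toNat, ?_, ?_⟩
        · rw [mem_erase, mem_range]
          refine ⟨?_, ?_⟩
          · intro h3
            apply a5
            omega
          · omega
        · ext <;> simp only [cx] <;> omega
      · rintro ⟨l', hl', rfl⟩
        rw [mem_erase, mem_range] at hl'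
        obtain ⟨b1, b2⟩ := hl'
        simp only [cx]
        refine ⟨⟨⟨?_, ?_, ?_, ?_⟩, ?_, ?_⟩, ?_, ?_⟩ <;> omega
    unfold below
    rw [this, card_image_of_injective _ hinj, card_erase_of_mem (by rw [mem_range]; omega), card_range]
  · have : (Rg n h).filter (fun q => q.2 - q.1 = (cx n k l).2 - (cx n k l).1 ∧ q.1 < (cx n k l).1) =
        (range l).image (fun l' : ℕ => cx n k l') := by
      ext q
      rw [mem_filter, mem_Rg, mem_image]
      constructor
      · rintro ⟨⟨⟨a1, a2, a3, a4⟩, a5, a6⟩, a7, a8⟩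
        simp only [cx] at a7 a8
        refine ⟨(q.1 + k).toNat, ?_, ?_⟩
        · rw [mem_range]
          omega
        · ext <;> simp only [cx] <;> omega
      · rintro ⟨l', hl', rfl⟩
        rw [mem_range] at hl'
        simp only [cx]
        refine ⟨⟨⟨?_, ?_, ?_, ?_⟩, ?_, ?_⟩, ?_, ?_⟩ <;> omega
    unfold below
    rw [this, card_image_of_injective _ hinj, card_range]

/-- gauge exponent of an `O` cell -/
def go (n h i j : ℕ) : ℕ := n * i + if h < i ∨ (i = h ∧ h + 1 ≤ j) then 1 else 0

/-- gauge exponent of an `E` cell -/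
def gx (n h k l : ℕ) : ℕ := n * k + if h < k ∨ (k = h ∧ h ≤ l) then 1 else 0

lemma entry {n h : ℕ} (h1 : 1 ≤ h) (hn : h < n) (i j k l : ℕ) (hi : i < n) (hj : j ≤ n)
    (hk : k ≤ n) (hl : l < n) (hne : ¬ (k = h ∧ l = h - 1)) (hno : ¬ (i = h ∧ j = h + 1)) :
    (-1 : ℤ) ^ gx n h k l * (-1) ^ go n h i j * kast (Rg n h) (cx n k l) (co n i j) =
      if (i = h ∧ j = h) ∧ (k = h ∧ l = h) then -1
      else (if k = i + 1 then 1 else 0) * ((if l = j then 1 else 0) - (if l + 1 = j then 1 else 0)) +
        (if k = i then 1 else 0) * ((if l = j then 1 else 0) + (if l + 1 = j then 1 else 0)) := by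
  have hadj : Adj (co n i j) (cx n k l) ↔ (k = i ∨ k = i + 1) ∧ (l = j ∨ l + 1 = j) := by
    unfold Adj co cx
    simp only
    omega
  have hdiag : ((cx n k l).2 - (cx n k l).1 = (co n i j).2 - (co n i j).1 + 1) ↔ k = i + 1 := by
    unfold co cx
    simp only
    omega
  unfold kast
  simp only [hadj, hdiag, above_co h1 hn i j hi, below_cx h1 hn k l hk hl]
  have hsq : ∀ a : ℕ, (-1 : ℤ) ^ a * (-1) ^ a = 1 := by
    intro a; rw [← mul_pow]; norm_num
  by_cases hA : (k = i ∨ k = i + 1) ∧ (l = j ∨ l + 1 = j)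
  · rw [if_pos hA]
    obtain ⟨hk1, hl1⟩ := hA
    have key : ∀ (ex : ℕ) (s : ℤ), ((s = 1 ∧ ex % 2 = 0) ∨ (s = -1 ∧ ex % 2 = 1)) →
        (-1 : ℤ) ^ ex = s := by
      rintro ex s (⟨rfl, he⟩ | ⟨rfl, he⟩)
      · exact (Nat.even_iff.mpr he).neg_one_pow
      · exact (Nat.odd_iff.mpr he).neg_one_pow
    rcases hk1 with hk1 | hk1
    · subst hk1
      rw [if_neg (by omega), mul_one, ← pow_add]
      unfold gx go
      apply key
      have h2 : ∀ a b : ℕ, (n * k + a + (n * k + b)) % 2 = (a + b) % 2 := by
        intro a b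
        have : n * k + a + (n * k + b) = 2 * (n * k) + (a + b) := by ring
        omega
      rw [h2]
      rw [if_neg (by omega : ¬ k = k + 1), if_pos (rfl : k = k)]
      rcases hl1 with hl1 | hl1
      · subst hl1
        rw [if_pos (rfl : l = l), if_neg (by omega : ¬ l + 1 = l)]
        by_cases c1 : k = h
        · by_cases c2 : l = h
          · split_ifs <;> omega
          · rw [if_neg (by omega)]
            by_cases c3 : h + 1 ≤ l
            · rw [if_pos (by omega), if_pos (by omega)]
              omega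
            · rw [if_neg (by omega), if_neg (by omega)]
              omega
        · rw [if_neg (by omega)]
          by_cases c3 : h < k
          · rw [if_pos (by omega), if_pos (by omega)]
            omega
          · rw [if_neg (by omega), if_neg (by omega)]
            omega
      · subst hl1
        rw [if_pos (rfl : l + 1 = l + 1), if_neg (by omega : ¬ l = l + 1), if_neg (by omega)]
        by_cases c3 : h < k ∨ (k = h ∧ h ≤ l)
        · rw [if_pos c3, if_pos (by omega)]
          omega
        · rw [if_neg c3, if_neg (by omega)]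
          omega
    · subst hk1
      rw [if_pos rfl, ← pow_add, ← pow_add]
      unfold gx go
      apply key
      have h2 : ∀ a b c : ℕ, (n * (i + 1) + a + (n * i + b) + c) % 2 = (n + a + b + c) % 2 := by
        intro a b c
        have : n * (i + 1) + a + (n * i + b) + c = 2 * (n * i) + (n + a + b + c) := by ring
        omega
      rw [h2]
      rw [if_pos (rfl : i + 1 = i + 1), if_neg (by omega : ¬ i + 1 = i),
        if_neg (by omega : ¬ ((i = h ∧ j = h) ∧ (i + 1 = h ∧ l = h)))]
      rcases hl1 with hl1 | hl1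
      · subst hl1
        rw [if_pos (rfl : l = l), if_neg (by omega : ¬ l + 1 = l)]
        by_cases c1 : h < i
        · rw [if_pos (by omega), if_pos (by omega), if_neg (by omega), if_neg (by omega)]
          omega
        · by_cases c2 : i = h
          · by_cases c3 : h + 1 ≤ l
            · rw [if_pos (by omega), if_pos (by omega), if_neg (by omega), if_neg (by omega)]
              omega
            · rw [if_pos (by omega), if_neg (by omega), if_pos (by omega), if_neg (by omega)]
              omega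
          · by_cases c4 : i + 1 = h ∧ h ≤ l
            · rw [if_pos (by omega), if_neg (by omega), if_neg (by omega), if_pos (by omega)]
              omega
            · rw [if_neg (by omega), if_neg (by omega), if_neg (by omega), if_neg (by omega)]
              omega
      · subst hl1
        rw [if_pos (rfl : l + 1 = l + 1), if_neg (by omega : ¬ l = l + 1)]
        by_cases c1 : h < i
        · rw [if_pos (by omega), if_pos (by omega), if_neg (by omega), if_neg (by omega)]
          omega
        · by_cases c2 : i = h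
          · by_cases c3 : h + 1 ≤ l + 1
            · rw [if_pos (by omega), if_pos (by omega), if_neg (by omega), if_neg (by omega)]
              omega
            · rw [if_pos (by omega), if_neg (by omega), if_pos (by omega), if_neg (by omega)]
              omega
          · by_cases c4 : i + 1 = h ∧ h ≤ l
            · rw [if_pos (by omega), if_neg (by omega), if_neg (by omega), if_pos (by omega)]
              omega
            · rw [if_neg (by omega), if_neg (by omega), if_neg (by omega), if_neg (by omega)]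
              omega
  · rw [if_neg hA, mul_zero]
    split_ifs <;> omega

end Run7.h775.Knight
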