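import Pool.Agent.Run7.h775.Knight.Column

/-!
# Values of the Green function and the minor
-/

namespace Run7.h775.Knight

open Polynomial Finset Pool.Agent.Helper848.AztecDet

/-- normalised central binomial coefficient -/
def am (m : ℕ) : ℚ := (Nat.centralBinom m : ℚ) / 4 ^ m

lemma Q0_coeff (h k : ℕ) : (Q0 h).coeff k = ((4 : ℚ) ^ h)⁻¹ * (Qp h).coeff k := by
  unfold Q0; rw [coeff_C_mul]

lemma q_pred (h : ℕ) (hh : 1 ≤ h) : (Q0 h).coeff (h - 1) = (Q0 h).coeff h := by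
  rw [Q0_coeff, Q0_coeff, Qp_symm h hh]

lemma am_sq (m : ℕ) : ((4 : ℚ) ^ (2 * m))⁻¹ * ((2 * m).choose m : ℚ) ^ 2 = am m ^ 2 := by
  unfold am Nat.centralBinom
  rw [pow_mul', div_pow]
  field_simp

lemma q_even (m : ℕ) (hm : 1 ≤ m) : (Q0 (2 * m)).coeff (2 * m) = (1 - am m ^ 2) / 4 := by
  rw [Q0_coeff, ← am_sq]
  have h1 := Sp_center_even m hm
  have h2 := Sp_coeff_h (2 * m) (by omega)
  rw [h2] at h1
  have h3 : ((4 : ℚ) ^ (2 * m)) ≠ 0 := by positivity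
  field_simp
  linarith

lemma q_odd (m : ℕ) : (Q0 (2 * m + 1)).coeff (2 * m + 1) = 1 / 4 := by
  rw [Q0_coeff]
  have h1 := Sp_center_odd m
  have h2 := Sp_coeff_h (2 * m + 1) (by omega)
  rw [h2] at h1
  have h3 : ((4 : ℚ) ^ (2 * m + 1)) ≠ 0 := by positivity
  field_simp
  linarith

lemma p_gen (h : ℕ) (hh : 1 ≤ h) : (X * Q0 h).coeff (h - 1) =
    ((4 : ℚ) ^ h)⁻¹ * (Rp h (tau h)).coeff (h - 1) - (Q0 h).coeff h := by
  rw [← Sp_coeff_pred h hh, ← q_pred h hh]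
  have h1 : X * Q0 h = C ((4 : ℚ) ^ h)⁻¹ * Sp h - Q0 h := by
    unfold Q0; rw [Sp_eq]; ring
  rw [h1, coeff_sub, coeff_C_mul]

lemma p_even (m : ℕ) (hm : 1 ≤ m) :
    (X * Q0 (2 * m)).coeff (2 * m - 1) = m * am m ^ 2 - (1 - am m ^ 2) / 4 := by
  rw [p_gen (2 * m) (by omega), Rp_even m hm, q_even m hm, ← am_sq]
  ring

lemma am_succ (m : ℕ) : (2 * (m + 1) : ℚ) * am (m + 1) = (2 * m + 1) * am m := by
  unfold am
  have h1 := Nat.succ_mul_centralBinom_succ m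
  have h2 : ((m : ℚ) + 1) * (Nat.centralBinom (m + 1) : ℚ) = 2 * (2 * m + 1) * Nat.centralBinom m := by
    exact_mod_cast h1
  rw [pow_succ]
  field_simp
  linarith

lemma am_sq' (m : ℕ) : ((4 : ℚ) ^ (2 * m + 1))⁻¹ * ((2 * m + 1).choose m : ℚ) ^ 2 = am (m + 1) ^ 2 := by
  have h1 : (Nat.centralBinom (m + 1) : ℚ) = 2 * ((2 * m + 1).choose m : ℚ) := by
    have h1 : Nat.centralBinom (m + 1) = 2 * (2 * m + 1).choose m := by
      unfold Nat.centralBinom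
      rw [show 2 * (m + 1) = (2 * m + 1) + 1 by ring, Nat.choose_succ_succ,
        Nat.choose_symm_half]
      ring
    exact_mod_cast h1
  unfold am
  rw [h1, div_pow, ← pow_mul, show (m + 1) * 2 = (2 * m + 1) + 1 by ring, pow_succ (4 : ℚ)]
  field_simp
  ring

lemma p_odd (m : ℕ) :
    (X * Q0 (2 * m + 1)).coeff (2 * m) = (m + 1) * am (m + 1) ^ 2 - 1 / 4 := by
  have h1 := p_gen (2 * m + 1) (by omega)
  rw [Nat.add_sub_cancel, Rp_odd m, q_odd m] at h1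
  rw [h1, ← am_sq']
  ring

section minor

variable {n h : ℕ}

lemma minor_main (h1 : 1 ≤ h) (hn : h < n) {Ha Hb : ℚ[X]} (ha : IsCol n h (h + 1) Ha)
    (hb : IsCol n h h Hb)
    (φ : {x : E n // x ≠ (⟨h, by omega⟩, ⟨h - 1, by omega⟩)} ≃
      {o : O n // o ≠ (⟨h, by omega⟩, ⟨h + 1, by omega⟩)}) :
    |(Matrix.of fun i j : {x : E n // x ≠ (⟨h, by omega⟩, ⟨h - 1, by omega⟩)} =>
        if (φ i : O n) = (⟨h, by omega⟩, ⟨h, by omega⟩) ∧
          (j : E n) = (⟨h, by omega⟩, ⟨h, by omega⟩) then -1 else K0 n (φ i) j).det| =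
    2 ^ (n * (n + 1) / 2) *
      |Ha.coeff (h - 1) * (1 - 2 * Hb.coeff h) + 2 * (Hb.coeff (h - 1) * Ha.coeff h)| := by
  obtain ⟨Ua, Wa, a1, a2, a3, rfl⟩ := ha
  obtain ⟨Ub, Wb, b1, b2, b3, rfl⟩ := hb
  obtain ⟨e, he⟩ := abs_det_minor (K0 n) (fun x : E n => (FF n h Ua Wa x.1).coeff x.2)
    (fun x : E n => (FF n h Ub Wb x.1).coeff x.2)
    ((⟨h, by omega⟩, ⟨h + 1, by omega⟩) : O n) ((⟨h, by omega⟩, ⟨h, by omega⟩) : O n)
    ((⟨h, by omega⟩, ⟨h - 1, by omega⟩) : E n) ((⟨h, by omega⟩, ⟨h, by omega⟩) : E n)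
    (by simp only [ne_eq, Prod.mk.injEq, Fin.mk.injEq]; omega)
    (by
      intro o
      rw [column hn a1 a2 a3 o]
      simp only [Prod.ext_iff, Fin.ext_iff])
    (by
      intro o
      rw [column hn b1 b2 b3 o]
      simp only [Prod.ext_iff, Fin.ext_iff])
    (by simp [K0]) φ
  rw [he]
  simp only [FF_self]
  obtain ⟨N, rfl⟩ : ∃ N, n = N + 1 := ⟨n - 1, by omega⟩
  rw [abs_det_K0]

end minor

end Run7.h775.Knight
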